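import Mathlib

/-!
# MP_3fd8c4: the cancellation law can fail for equidecomposability with restricted pieces
-/

namespace Pool.Agent.Results.MP_3fd8c4_al.CancellationFails

open Set

universe u v

/-- A `G`-invariant subalgebra of the power set of `X`. -/
structure InvariantSubalgebra (G : Type u) (X : Type v) [Group G] [MulAction G X] where
  /-- the members of the subalgebra -/
  carrier : Set (Set X)
  empty_mem : ∅ ∈ carrier
  univ_mem : Set.univ ∈ carrier
  union_mem : ∀ A ∈ carrier, ∀ B ∈ carrier, A ∪ B ∈ carrier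
  inter_mem : ∀ A ∈ carrier, ∀ B ∈ carrier, A ∩ B ∈ carrier
  compl_mem : ∀ A ∈ carrier, Aᶜ ∈ carrier
  smul_mem : ∀ g : G, ∀ A ∈ carrier, (fun x => g • x) '' A ∈ carrier

variable {G : Type u} {X : Type v} [Group G] [MulAction G X]

/-- The part of `E ⊆ X × ℕ` at level `m`. -/
def slice (E : Set (X × ℕ)) (m : ℕ) : Set X := {x | (x, m) ∈ E}

/-- The family `𝒜*`: the sets `⋃_{m < n} A_m × {m}` with all `A_m ∈ 𝒜`. -/
def Star (𝒜 : InvariantSubalgebra G X) : Set (Set (X × ℕ)) :=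
  {E | ∃ (n : ℕ) (A : ℕ → Set X), (∀ m, A m ∈ 𝒜.carrier) ∧ E = {p | p.2 < n ∧ p.1 ∈ A p.2}}

/-- The action of `G* = G × Perm ℕ` on `X × ℕ`. -/
def act (h : G × Equiv.Perm ℕ) (p : X × ℕ) : X × ℕ := (h.1 • p.1, h.2 p.2)

/-- Equidecomposability in `𝒜`. -/
def Equidec (𝒜 : InvariantSubalgebra G X) (A B : Set (X × ℕ)) : Prop :=
  ∃ (k : ℕ) (P : Fin k → Set (X × ℕ)) (h : Fin k → G × Equiv.Perm ℕ),
    (∀ i, P i ∈ Star 𝒜) ∧ (∀ i j, i ≠ j → Disjoint (P i) (P j)) ∧ (⋃ i, P i) = A ∧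
    (∀ i j, i ≠ j → Disjoint (act (h i) '' P i) (act (h j) '' P j)) ∧
    (⋃ i, act (h i) '' P i) = B

/-! ### Basic facts -/

theorem mem_star_iff (𝒜 : InvariantSubalgebra G X) (E : Set (X × ℕ)) :
    E ∈ Star 𝒜 ↔ (∀ m, slice E m ∈ 𝒜.carrier) ∧ ∃ n, ∀ p ∈ E, p.2 < n := by
  constructor
  · rintro ⟨n, A, hA, rfl⟩
    refine ⟨fun m => ?_, n, fun p hp => hp.1⟩
    by_cases hm : m < n
    · have : slice {p : X × ℕ | p.2 < n ∧ p.1 ∈ A p.2} m = A m := by
        ext x; simp [slice, hm]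
      rw [this]; exact hA m
    · have : slice {p : X × ℕ | p.2 < n ∧ p.1 ∈ A p.2} m = ∅ := by
        ext x; simp [slice, hm]
      rw [this]; exact 𝒜.empty_mem
  · rintro ⟨h, n, hn⟩
    refine ⟨n, slice E, h, ?_⟩
    ext p
    constructor
    · intro hp; exact ⟨hn p hp, hp⟩
    · intro hp; exact hp.2

theorem star_empty (𝒜 : InvariantSubalgebra G X) : (∅ : Set (X × ℕ)) ∈ Star 𝒜 := by
  rw [mem_star_iff]
  exact ⟨fun m => 𝒜.empty_mem, 0, fun p hp => absurd hp (Set.notMem_empty p)⟩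

theorem star_union (𝒜 : InvariantSubalgebra G X) {E F : Set (X × ℕ)} (hE : E ∈ Star 𝒜)
    (hF : F ∈ Star 𝒜) : E ∪ F ∈ Star 𝒜 := by
  rw [mem_star_iff] at *
  obtain ⟨h1, n, hn⟩ := hE
  obtain ⟨h2, m, hm⟩ := hF
  refine ⟨fun k => 𝒜.union_mem _ (h1 k) _ (h2 k), max n m, ?_⟩
  rintro p (hp | hp)
  · exact lt_max_of_lt_left (hn p hp)
  · exact lt_max_of_lt_right (hm p hp)

theorem star_inter (𝒜 : InvariantSubalgebra G X) {E F : Set (X × ℕ)} (hE : E ∈ Star 𝒜)
    (hF : F ∈ Star 𝒜) : E ∩ F ∈ Star 𝒜 := by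
  rw [mem_star_iff] at *
  obtain ⟨h1, n, hn⟩ := hE
  obtain ⟨h2, m, hm⟩ := hF
  exact ⟨fun k => 𝒜.inter_mem _ (h1 k) _ (h2 k), n, fun p hp => hn p hp.1⟩

theorem act_injective (h : G × Equiv.Perm ℕ) : Function.Injective (act h : X × ℕ → X × ℕ) := by
  rintro ⟨x, m⟩ ⟨y, n⟩ e
  simp only [act, Prod.mk.injEq] at e
  exact Prod.ext (MulAction.injective _ e.1) (h.2.injective e.2)

theorem act_mul (h k : G × Equiv.Perm ℕ) (p : X × ℕ) : act (h * k) p = act h (act k p) := by
  simp [act, mul_smul]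

theorem act_one (p : X × ℕ) : act (1 : G × Equiv.Perm ℕ) p = p := by
  simp [act]

theorem act_inv_act (h : G × Equiv.Perm ℕ) (p : X × ℕ) : act h⁻¹ (act h p) = p := by
  rw [← act_mul, inv_mul_cancel, act_one]

theorem star_act (𝒜 : InvariantSubalgebra G X) {E : Set (X × ℕ)} (hE : E ∈ Star 𝒜)
    (h : G × Equiv.Perm ℕ) : act h '' E ∈ Star 𝒜 := by
  rw [mem_star_iff] at *
  obtain ⟨h1, n, hn⟩ := hE
  constructor
  · intro m
    have : slice (act h '' E) m = (fun x => h.1 • x) '' slice E (h.2.symm m) := by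
      ext x
      constructor
      · rintro ⟨⟨y, k⟩, hy, e⟩
        simp only [act, Prod.mk.injEq] at e
        refine ⟨y, ?_, e.1⟩
        have : h.2.symm m = k := by rw [← e.2]; simp
        rw [this]; exact hy
      · rintro ⟨y, hy, rfl⟩
        exact ⟨(y, h.2.symm m), hy, by simp [act]⟩
    rw [this]
    exact 𝒜.smul_mem _ _ (h1 _)
  · obtain ⟨N, hN⟩ := ((Set.finite_lt_nat n).image h.2).bddAbove
    refine ⟨N + 1, ?_⟩
    rintro p ⟨q, hq, rfl⟩
    exact Nat.lt_succ_of_le (hN ⟨q.2, hn q hq, rfl⟩)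

theorem equidec_of_fintype (𝒜 : InvariantSubalgebra G X) {A B : Set (X × ℕ)} {ι : Type}
    [Finite ι] (P : ι → Set (X × ℕ)) (h : ι → G × Equiv.Perm ℕ)
    (h1 : ∀ i, P i ∈ Star 𝒜) (h2 : ∀ i j, i ≠ j → Disjoint (P i) (P j)) (h3 : (⋃ i, P i) = A)
    (h4 : ∀ i j, i ≠ j → Disjoint (act (h i) '' P i) (act (h j) '' P j))
    (h5 : (⋃ i, act (h i) '' P i) = B) : Equidec 𝒜 A B := by
  obtain ⟨k, ⟨e⟩⟩ := Finite.exists_equiv_fin ι
  refine ⟨k, fun i => P (e.symm i), fun i => h (e.symm i), fun i => h1 _,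
    fun i j hij => h2 _ _ fun he => hij (e.symm.injective he), ?_,
    fun i j hij => h4 _ _ fun he => hij (e.symm.injective he), ?_⟩
  · rw [← h3]; exact e.symm.surjective.iUnion_comp P
  · rw [← h5]; exact e.symm.surjective.iUnion_comp fun i => act (h i) '' P i

theorem equidec_act (𝒜 : InvariantSubalgebra G X) {A : Set (X × ℕ)} (hA : A ∈ Star 𝒜)
    (h : G × Equiv.Perm ℕ) : Equidec 𝒜 A (act h '' A) := by
  refine equidec_of_fintype 𝒜 (ι := Unit) (fun _ => A) (fun _ => h) (fun _ => hA)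
    (fun i j hij => absurd rfl hij) (Set.iUnion_const _) (fun i j hij => absurd rfl hij)
    (Set.iUnion_const _)

theorem equidec_refl (𝒜 : InvariantSubalgebra G X) {A : Set (X × ℕ)} (hA : A ∈ Star 𝒜) :
    Equidec 𝒜 A A := by
  have := equidec_act 𝒜 hA (1 : G × Equiv.Perm ℕ)
  have h1 : act (1 : G × Equiv.Perm ℕ) '' A = A := by
    ext p
    constructor
    · rintro ⟨q, hq, rfl⟩; rw [act_one]; exact hq
    · intro hp; exact ⟨p, hp, act_one p⟩
  rwa [h1] at this

theorem image_inv (h : G × Equiv.Perm ℕ) (A : Set (X × ℕ)) : act h⁻¹ '' (act h '' A) = A := by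
  ext p
  constructor
  · rintro ⟨_, ⟨q, hq, rfl⟩, rfl⟩; rw [act_inv_act]; exact hq
  · intro hp; exact ⟨_, ⟨p, hp, rfl⟩, act_inv_act h p⟩

theorem equidec_symm (𝒜 : InvariantSubalgebra G X) {A B : Set (X × ℕ)} (h : Equidec 𝒜 A B) :
    Equidec 𝒜 B A := by
  obtain ⟨k, P, h, h1, h2, h3, h4, h5⟩ := h
  refine ⟨k, fun i => act (h i) '' P i, fun i => (h i)⁻¹, fun i => star_act 𝒜 (h1 i) _, h4, h5,
    ?_, ?_⟩
  · intro i j hij
    rw [image_inv, image_inv]
    exact h2 i j hij
  · simp only [image_inv]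
    exact h3

theorem equidec_trans (𝒜 : InvariantSubalgebra G X) {A B C : Set (X × ℕ)}
    (hAB : Equidec 𝒜 A B) (hBC : Equidec 𝒜 B C) : Equidec 𝒜 A C := by
  obtain ⟨k, P, f, p1, p2, p3, p4, p5⟩ := hAB
  obtain ⟨l, Q, g, q1, q2, q3, q4, q5⟩ := hBC
  have himg : ∀ i j, act (g j * f i) '' (P i ∩ act (f i)⁻¹ '' Q j) =
      act (g j) '' (act (f i) '' P i ∩ Q j) := by
    intro i j
    ext x
    constructor
    · rintro ⟨y, ⟨hy, ⟨z, hz, rfl⟩⟩, rfl⟩
      rw [act_mul]
      refine ⟨_, ⟨⟨_, hy, rfl⟩, ?_⟩, rfl⟩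
      rw [← act_mul, mul_inv_cancel, act_one]
      exact hz
    · rintro ⟨y, ⟨⟨z, hz, rfl⟩, hy⟩, rfl⟩
      refine ⟨z, ⟨hz, ⟨_, hy, act_inv_act _ _⟩⟩, act_mul _ _ _⟩
  refine equidec_of_fintype 𝒜 (ι := Fin k × Fin l)
    (fun t => P t.1 ∩ act (f t.1)⁻¹ '' Q t.2) (fun t => g t.2 * f t.1) ?_ ?_ ?_ ?_ ?_
  · rintro ⟨i, j⟩
    exact star_inter 𝒜 (p1 i) (star_act 𝒜 (q1 j) _)
  · rintro ⟨i, j⟩ ⟨i', j'⟩ hne
    by_cases hi : i = i'
    · subst hi
      have hj : j ≠ j' := fun hj => hne (by rw [hj])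
      refine Disjoint.mono (Set.inter_subset_right) (Set.inter_subset_right) ?_
      rw [Set.disjoint_image_iff (act_injective _)]
      exact q2 j j' hj
    · exact Disjoint.mono (Set.inter_subset_left) (Set.inter_subset_left) (p2 i i' hi)
  · ext x
    rw [Set.mem_iUnion]
    constructor
    · rintro ⟨⟨i, j⟩, hx, -⟩
      rw [← p3]
      exact Set.mem_iUnion.2 ⟨i, hx⟩
    · intro hx
      rw [← p3] at hx
      obtain ⟨i, hi⟩ := Set.mem_iUnion.1 hx
      have hB : act (f i) x ∈ B := by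
        rw [← p5]; exact Set.mem_iUnion.2 ⟨i, x, hi, rfl⟩
      rw [← q3] at hB
      obtain ⟨j, hj⟩ := Set.mem_iUnion.1 hB
      exact ⟨(i, j), hi, ⟨_, hj, act_inv_act _ _⟩⟩
  · rintro ⟨i, j⟩ ⟨i', j'⟩ hne
    change Disjoint (act (g j * f i) '' (P i ∩ act (f i)⁻¹ '' Q j))
      (act (g j' * f i') '' (P i' ∩ act (f i')⁻¹ '' Q j'))
    rw [himg, himg]
    by_cases hj : j = j'
    · subst hj
      have hi : i ≠ i' := fun hi => hne (by rw [hi])
      rw [Set.disjoint_image_iff (act_injective _)]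
      exact Disjoint.mono (Set.inter_subset_left) (Set.inter_subset_left) (p4 i i' hi)
    · exact Disjoint.mono (Set.image_mono Set.inter_subset_right)
        (Set.image_mono Set.inter_subset_right) (q4 j j' hj)
  · ext x
    rw [Set.mem_iUnion]
    constructor
    · rintro ⟨⟨i, j⟩, hx⟩
      change x ∈ act (g j * f i) '' (P i ∩ act (f i)⁻¹ '' Q j) at hx
      rw [himg] at hx
      obtain ⟨y, hy, rfl⟩ := hx
      rw [← q5]
      exact Set.mem_iUnion.2 ⟨j, y, hy.2, rfl⟩
    · intro hx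
      rw [← q5] at hx
      obtain ⟨j, y, hy, rfl⟩ := Set.mem_iUnion.1 hx
      have hB : y ∈ B := by
        rw [← q3]; exact Set.mem_iUnion.2 ⟨j, hy⟩
      rw [← p5] at hB
      obtain ⟨i, hi⟩ := Set.mem_iUnion.1 hB
      refine ⟨(i, j), ?_⟩
      change act (g j) y ∈ act (g j * f i) '' (P i ∩ act (f i)⁻¹ '' Q j)
      rw [himg]
      exact ⟨y, ⟨hi, hy⟩, rfl⟩

theorem equidec_union (𝒜 : InvariantSubalgebra G X) {A B A' B' : Set (X × ℕ)}
    (hA : Equidec 𝒜 A A') (hB : Equidec 𝒜 B B') (hd : Disjoint A B) (hd' : Disjoint A' B') :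
    Equidec 𝒜 (A ∪ B) (A' ∪ B') := by
  obtain ⟨k, P, f, p1, p2, p3, p4, p5⟩ := hA
  obtain ⟨l, Q, g, q1, q2, q3, q4, q5⟩ := hB
  refine equidec_of_fintype 𝒜 (ι := Fin k ⊕ Fin l) (Sum.elim P Q) (Sum.elim f g) ?_ ?_ ?_ ?_ ?_
  · rintro (i | j)
    · exact p1 i
    · exact q1 j
  · rintro (i | j) (i' | j') hne
    · exact p2 i i' fun h => hne (by rw [h])
    · exact hd.mono (by rw [← p3]; exact Set.subset_iUnion P i)
        (by rw [← q3]; exact Set.subset_iUnion Q j')
    · exact hd.symm.mono (by rw [← q3]; exact Set.subset_iUnion Q j)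
        (by rw [← p3]; exact Set.subset_iUnion P i')
    · exact q2 j j' fun h => hne (by rw [h])
  · rw [← p3, ← q3]
    ext x
    simp only [Set.mem_iUnion, Set.mem_union]
    constructor
    · rintro ⟨i | j, h⟩
      · exact Or.inl ⟨i, h⟩
      · exact Or.inr ⟨j, h⟩
    · rintro (⟨i, h⟩ | ⟨j, h⟩)
      · exact ⟨Sum.inl i, h⟩
      · exact ⟨Sum.inr j, h⟩
  · rintro (i | j) (i' | j') hne
    · exact p4 i i' fun h => hne (by rw [h])
    · exact hd'.mono (by rw [← p5]; exact Set.subset_iUnion (fun i => act (f i) '' P i) i)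
        (by rw [← q5]; exact Set.subset_iUnion (fun j => act (g j) '' Q j) j')
    · exact hd'.symm.mono (by rw [← q5]; exact Set.subset_iUnion (fun j => act (g j) '' Q j) j)
        (by rw [← p5]; exact Set.subset_iUnion (fun i => act (f i) '' P i) i')
    · exact q4 j j' fun h => hne (by rw [h])
  · rw [← p5, ← q5]
    ext x
    simp only [Set.mem_iUnion, Set.mem_union]
    constructor
    · rintro ⟨i | j, h⟩
      · exact Or.inl ⟨i, h⟩
      · exact Or.inr ⟨j, h⟩
    · rintro (⟨i, h⟩ | ⟨j, h⟩)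
      · exact ⟨Sum.inl i, h⟩
      · exact ⟨Sum.inr j, h⟩

/-- Equidecomposability as an equivalence relation on `𝒜*`. -/
instance equidecSetoid (𝒜 : InvariantSubalgebra G X) : Setoid (Star 𝒜) where
  r A B := Equidec 𝒜 A B
  iseqv := ⟨fun A => equidec_refl 𝒜 A.2, fun h => equidec_symm 𝒜 h,
    fun h h' => equidec_trans 𝒜 h h'⟩

/-- The set `𝒮(𝒜)` of types. -/
def TypeSemigroup (𝒜 : InvariantSubalgebra G X) : Type v :=
  Quotient (equidecSetoid 𝒜)

/-- The set `E` with all levels shifted upward by `N`. -/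
def shift (N : ℕ) (E : Set (X × ℕ)) : Set (X × ℕ) := {p | N ≤ p.2 ∧ (p.1, p.2 - N) ∈ E}

/-- The permutation exchanging the blocks `[0, K)` and `[K, 2K)`. -/
def swapBlock (K : ℕ) : Equiv.Perm ℕ where
  toFun m := if m < K then m + K else if m < 2 * K then m - K else m
  invFun m := if m < K then m + K else if m < 2 * K then m - K else m
  left_inv m := by
    by_cases h1 : m < K
    · simp only [h1, if_true]; split_ifs <;> omega
    · by_cases h2 : m < 2 * K
      · simp only [h1, h2, if_true, if_false]; split_ifs <;> omega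
      · simp only [h1, h2, if_false]
  right_inv m := by
    by_cases h1 : m < K
    · simp only [h1, if_true]; split_ifs <;> omega
    · by_cases h2 : m < 2 * K
      · simp only [h1, h2, if_true, if_false]; split_ifs <;> omega
      · simp only [h1, h2, if_false]

theorem star_shift (𝒜 : InvariantSubalgebra G X) {E : Set (X × ℕ)} (hE : E ∈ Star 𝒜) (N : ℕ) :
    shift N E ∈ Star 𝒜 := by
  rw [mem_star_iff] at *
  obtain ⟨h1, n, hn⟩ := hE
  refine ⟨fun m => ?_, N + n, ?_⟩
  · by_cases h : N ≤ m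
    · have : slice (shift N E) m = slice E (m - N) := by
        ext x; simp [slice, shift, h]
      rw [this]; exact h1 _
    · have : slice (shift N E) m = ∅ := by
        ext x; simp [slice, shift, h]
      rw [this]; exact 𝒜.empty_mem
  · rintro p ⟨h, hp⟩
    have := hn _ hp
    simp only at this
    omega

theorem equidec_shift (𝒜 : InvariantSubalgebra G X) {E : Set (X × ℕ)} (hE : E ∈ Star 𝒜) (N : ℕ) :
    Equidec 𝒜 E (shift N E) := by
  -- first a large shift
  have key : ∀ {F : Set (X × ℕ)}, F ∈ Star 𝒜 → ∀ K : ℕ, (∀ p ∈ F, p.2 < K) →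
      Equidec 𝒜 F (shift K F) := by
    intro F hF K hK
    have : act ((1, swapBlock K) : G × Equiv.Perm ℕ) '' F = shift K F := by
      ext ⟨x, m⟩
      constructor
      · rintro ⟨⟨y, k⟩, hy, e⟩
        have hk : k < K := hK _ hy
        simp only [act, one_smul, swapBlock, Equiv.coe_fn_mk, if_pos hk, Prod.mk.injEq] at e
        obtain ⟨rfl, rfl⟩ := e
        refine ⟨by simp, ?_⟩
        simpa using hy
      · rintro ⟨h1, h2⟩
        have h3 : m - K < K := hK _ h2
        refine ⟨(x, m - K), h2, ?_⟩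
        simp only [act, one_smul, swapBlock, Equiv.coe_fn_mk]
        rw [if_pos h3]
        simp only [Prod.mk.injEq, true_and]
        simp only at h1
        omega
    rw [← this]
    exact equidec_act 𝒜 hF _
  obtain ⟨-, n, hn⟩ := (mem_star_iff 𝒜 E).1 hE
  have h1 := key hE (N + (N + n)) (fun p hp => by have := hn p hp; omega)
  have h2 := key (star_shift 𝒜 hE N) (N + n) (fun p hp => by
    obtain ⟨h, hp⟩ := hp
    have := hn _ hp
    simp only at this
    omega)
  have h3 : shift (N + n) (shift N E) = shift (N + (N + n)) E := by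
    ext ⟨x, m⟩
    simp only [shift, Set.mem_ofPred_eq]
    constructor
    · rintro ⟨a, b, c⟩
      refine ⟨by omega, ?_⟩
      have : m - (N + (N + n)) = m - (N + n) - N := by omega
      rw [this]; exact c
    · rintro ⟨a, c⟩
      refine ⟨by omega, by omega, ?_⟩
      have : m - (N + (N + n)) = m - (N + n) - N := by omega
      rw [← this]; exact c
  rw [h3] at h2
  exact equidec_trans 𝒜 h1 (equidec_symm 𝒜 h2)

/-- A strict upper bound for the levels of a member of `𝒜*`. -/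
noncomputable def bound {𝒜 : InvariantSubalgebra G X} (A : Star 𝒜) : ℕ :=
  sInf {n | ∀ p ∈ A.1, p.2 < n}

theorem lt_bound {𝒜 : InvariantSubalgebra G X} (A : Star 𝒜) : ∀ p ∈ A.1, p.2 < bound A :=
  Nat.sInf_mem (s := {n | ∀ p ∈ A.1, p.2 < n}) ((mem_star_iff 𝒜 A.1).1 A.2).2

theorem disjoint_shift {𝒜 : InvariantSubalgebra G X} (A B : Star 𝒜) :
    Disjoint A.1 (shift (bound A) B.1) := by
  rw [Set.disjoint_left]
  intro p hp hp'
  have := lt_bound A p hp
  have := hp'.1
  omega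

/-- The sum `[A] + [B] = [A ∪ B']`, where `B'` is `B` with the levels shifted upward beyond the
levels of `A`. -/
noncomputable def addStar {𝒜 : InvariantSubalgebra G X} (A B : Star 𝒜) : Star 𝒜 :=
  ⟨A.1 ∪ shift (bound A) B.1, star_union 𝒜 A.2 (star_shift 𝒜 B.2 _)⟩

noncomputable instance (𝒜 : InvariantSubalgebra G X) : Add (TypeSemigroup 𝒜) where
  add := Quotient.map₂ addStar (by
    intro A A' hA B B' hB
    exact equidec_union 𝒜 hA (equidec_trans 𝒜 (equidec_symm 𝒜 (equidec_shift 𝒜 B.2 _))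
      (equidec_trans 𝒜 hB (equidec_shift 𝒜 B'.2 _))) (disjoint_shift A B) (disjoint_shift A' B'))

/-- The type of a member of `𝒜*`. -/
def mk {𝒜 : InvariantSubalgebra G X} (A : Set (X × ℕ)) (hA : A ∈ Star 𝒜) : TypeSemigroup 𝒜 :=
  Quotient.mk _ ⟨A, hA⟩

theorem mk_eq {𝒜 : InvariantSubalgebra G X} {A B : Set (X × ℕ)} (hA : A ∈ Star 𝒜)
    (hB : B ∈ Star 𝒜) : mk A hA = mk B hB ↔ Equidec 𝒜 A B := Quotient.eq

theorem mk_union {𝒜 : InvariantSubalgebra G X} {A B : Set (X × ℕ)} (hA : A ∈ Star 𝒜)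
    (hB : B ∈ Star 𝒜) (hd : Disjoint A B) :
    mk (A ∪ B) (star_union 𝒜 hA hB) = mk A hA + mk B hB := by
  refine Quotient.sound ?_
  exact equidec_union 𝒜 (equidec_refl 𝒜 hA) (equidec_shift 𝒜 hB _) hd
    (disjoint_shift ⟨A, hA⟩ ⟨B, hB⟩)

theorem add_eq {𝒜 : InvariantSubalgebra G X} {A B : Set (X × ℕ)} (hA : A ∈ Star 𝒜)
    (hB : B ∈ Star 𝒜) : mk A hA + mk B hB =
      mk (A ∪ shift (bound (⟨A, hA⟩ : Star 𝒜)) B) (star_union 𝒜 hA (star_shift 𝒜 hB _)) := rfl

theorem mk_shift {𝒜 : InvariantSubalgebra G X} {B : Set (X × ℕ)} (hB : B ∈ Star 𝒜) (N : ℕ) :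
    mk (shift N B) (star_shift 𝒜 hB N) = mk B hB :=
  (mk_eq _ _).2 (equidec_symm 𝒜 (equidec_shift 𝒜 hB N))

theorem disjoint_shift' {A B : Set (X × ℕ)} {N : ℕ} (h : ∀ p ∈ A, p.2 < N) :
    Disjoint A (shift N B) := by
  rw [Set.disjoint_left]
  intro p hp hp'
  have := h p hp
  have := hp'.1
  omega

instance (𝒜 : InvariantSubalgebra G X) : Zero (TypeSemigroup 𝒜) := ⟨mk ∅ (star_empty 𝒜)⟩

noncomputable instance (𝒜 : InvariantSubalgebra G X) : AddCommMonoid (TypeSemigroup 𝒜) where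
  nsmul := nsmulRec
  zero_add a := by
    induction a using Quotient.inductionOn with | _ A => ?_
    obtain ⟨A, hA⟩ := A
    change mk ∅ (star_empty 𝒜) + mk A hA = mk A hA
    rw [← mk_union _ _ (Set.empty_disjoint _)]
    congr 1
    exact Set.empty_union A
  add_zero a := by
    induction a using Quotient.inductionOn with | _ A => ?_
    obtain ⟨A, hA⟩ := A
    change mk A hA + mk ∅ (star_empty 𝒜) = mk A hA
    rw [← mk_union _ _ (Set.disjoint_empty _)]
    congr 1
    exact Set.union_empty A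
  add_comm a b := by
    induction a using Quotient.inductionOn with | _ A => ?_
    induction b using Quotient.inductionOn with | _ B => ?_
    obtain ⟨A, hA⟩ := A
    obtain ⟨B, hB⟩ := B
    change mk A hA + mk B hB = mk B hB + mk A hA
    obtain ⟨-, n, hn⟩ := (mem_star_iff 𝒜 A).1 hA
    have hd : Disjoint A (shift n B) := disjoint_shift' hn
    rw [← mk_shift hB n, ← mk_union _ _ hd, ← mk_union _ _ hd.symm]
    congr 1
    exact Set.union_comm _ _
  add_assoc a b c := by
    induction a using Quotient.inductionOn with | _ A => ?_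
    induction b using Quotient.inductionOn with | _ B => ?_
    induction c using Quotient.inductionOn with | _ C => ?_
    obtain ⟨A, hA⟩ := A
    obtain ⟨B, hB⟩ := B
    obtain ⟨C, hC⟩ := C
    change mk A hA + mk B hB + mk C hC = mk A hA + (mk B hB + mk C hC)
    obtain ⟨-, n, hn⟩ := (mem_star_iff 𝒜 A).1 hA
    have hd : Disjoint A (shift n B) := disjoint_shift' hn
    obtain ⟨-, m, hm⟩ := (mem_star_iff 𝒜 _).1 (star_union 𝒜 hA (star_shift 𝒜 hB n))
    have hd1 : Disjoint (A ∪ shift n B) (shift m C) := disjoint_shift' hm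
    have hd2 : Disjoint (shift n B) (shift m C) := hd1.mono_left Set.subset_union_right
    have hd3 : Disjoint A (shift n B ∪ shift m C) := by
      rw [Set.disjoint_union_right]
      exact ⟨hd, hd1.mono_left Set.subset_union_left⟩
    rw [← mk_shift hB n, ← mk_shift hC m, ← mk_union _ _ hd, ← mk_union _ _ hd1,
      ← mk_union _ _ hd2, ← mk_union _ _ hd3]
    congr 1
    exact Set.union_assoc _ _ _

/-- The cancellation law in `𝒮(𝒜)`. -/
def CancellationLaw (𝒜 : InvariantSubalgebra G X) : Prop :=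
  ∀ n : ℕ, 1 ≤ n → ∀ α β : TypeSemigroup 𝒜, n • α = n • β → α = β

/-! ### The example -/

/-- The group of the example. -/
abbrev GG : Type := Multiplicative ℤ × Equiv.Perm Bool

/-- The set of the example. -/
abbrev XX : Type := ℤ × Bool

/-- The action of the example: `(a, σ)` maps `(k, b)` to `(a + k, σ b)`. -/
instance exAction : MulAction GG XX where
  smul g x := (Multiplicative.toAdd g.1 + x.1, g.2 x.2)
  one_smul x := by
    change (Multiplicative.toAdd (1 : Multiplicative ℤ) + x.1, (1 : Equiv.Perm Bool) x.2) = x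
    simp
  mul_smul g h x := by
    change (Multiplicative.toAdd (g.1 * h.1) + x.1, (g.2 * h.2) x.2) =
      (Multiplicative.toAdd g.1 + (Multiplicative.toAdd h.1 + x.1), g.2 (h.2 x.2))
    simp [add_assoc]

theorem smul_def (g : GG) (x : XX) : g • x = (Multiplicative.toAdd g.1 + x.1, g.2 x.2) := rfl

/-- Sets that are constant near `+∞` and near `-∞`. -/
def EvConst (A : Set XX) : Prop :=
  ∃ N : ℤ, 0 ≤ N ∧ ∀ x y : XX, ((N ≤ x.1 ∧ N ≤ y.1) ∨ (x.1 ≤ -N ∧ y.1 ≤ -N)) → (x ∈ A ↔ y ∈ A)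

/-- The invariant subalgebra of the example. -/
def exAlg : InvariantSubalgebra GG XX where
  carrier := {A | EvConst A}
  empty_mem := ⟨0, le_refl _, fun x y _ => Iff.rfl⟩
  univ_mem := ⟨0, le_refl _, fun x y _ => Iff.rfl⟩
  union_mem := by
    rintro A ⟨N, hN, hA⟩ B ⟨M, hM, hB⟩
    refine ⟨max N M, by omega, fun x y h => ?_⟩
    exact or_congr (hA x y (by omega)) (hB x y (by omega))
  inter_mem := by
    rintro A ⟨N, hN, hA⟩ B ⟨M, hM, hB⟩
    refine ⟨max N M, by omega, fun x y h => ?_⟩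
    exact and_congr (hA x y (by omega)) (hB x y (by omega))
  compl_mem := by
    rintro A ⟨N, hN, hA⟩
    exact ⟨N, hN, fun x y h => not_congr (hA x y h)⟩
  smul_mem := by
    rintro g A ⟨N, hN, hA⟩
    have hmem : ∀ x : XX, x ∈ (fun x => g • x) '' A ↔ g⁻¹ • x ∈ A := by
      intro x
      constructor
      · rintro ⟨y, hy, rfl⟩; simpa using hy
      · intro h; exact ⟨_, h, by simp⟩
    have h1 : ∀ x : XX, (g⁻¹ • x).1 = x.1 - Multiplicative.toAdd g.1 := by
      intro x
      rw [smul_def]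
      simp only [Prod.fst_inv, toAdd_inv]
      ring
    refine ⟨N + |Multiplicative.toAdd g.1|, by positivity, fun x y h => ?_⟩
    rw [hmem, hmem]
    apply hA
    rw [h1, h1]
    have h2 := le_abs_self (Multiplicative.toAdd g.1)
    have h3 := neg_abs_le (Multiplicative.toAdd g.1)
    omega

open Classical in
/-- The number of elements of `E` in the block `(k, m)`, modulo `2`. -/
noncomputable def blk (E : Set (XX × ℕ)) (q : ℤ × ℕ) : ZMod 2 :=
  ∑ b : Bool, if ((q.1, b), q.2) ∈ E then 1 else 0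

/-- The parity invariant. -/
noncomputable def μ (E : Set (XX × ℕ)) : ZMod 2 := ∑ᶠ q, blk E q

theorem support_finite {E : Set (XX × ℕ)} (hE : E ∈ Star exAlg) :
    (Function.support (blk E)).Finite := by
  classical
  obtain ⟨h1, n, hn⟩ := (mem_star_iff exAlg E).1 hE
  choose N hN hc using h1
  refine Set.Finite.subset (s := ⋃ m ∈ Set.Iio n, (fun k : ℤ => (k, m)) '' Set.Ioo (-N m) (N m))
    ?_ ?_
  · exact Set.Finite.biUnion (Set.finite_Iio n) fun m _ => (Set.finite_Ioo _ _).image _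
  · rintro ⟨k, m⟩ hq
    rw [Function.mem_support] at hq
    rw [Set.mem_iUnion₂]
    by_cases hm : m < n
    · refine ⟨m, hm, k, ?_, rfl⟩
      by_contra hk
      apply hq
      have hiff : ((k, false), m) ∈ E ↔ ((k, true), m) ∈ E := by
        refine hc m (k, false) (k, true) ?_
        simp only [Set.mem_Ioo, not_and_or, not_lt] at hk
        simp only
        omega
      unfold blk
      rw [Fintype.sum_bool]
      by_cases h : ((k, true), m) ∈ E
      · rw [if_pos h, if_pos (hiff.2 h)]; decide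
      · rw [if_neg h, if_neg (fun h' => h (hiff.1 h'))]; simp
    · exfalso
      apply hq
      unfold blk
      refine Finset.sum_eq_zero fun b _ => if_neg fun h => hm (hn _ h)

theorem blk_iUnion {k : ℕ} (P : Fin k → Set (XX × ℕ)) (hP : ∀ i j, i ≠ j → Disjoint (P i) (P j))
    (q : ℤ × ℕ) : blk (⋃ i, P i) q = ∑ i, blk (P i) q := by
  classical
  unfold blk
  rw [Finset.sum_comm]
  refine Finset.sum_congr rfl fun b _ => ?_
  by_cases h : ((q.1, b), q.2) ∈ ⋃ i, P i
  · rw [if_pos h]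
    obtain ⟨i, hi⟩ := Set.mem_iUnion.1 h
    rw [Finset.sum_eq_single i, if_pos hi]
    · intro j _ hj
      exact if_neg fun h' => Set.disjoint_left.1 (hP i j (Ne.symm hj)) hi h'
    · intro h; exact absurd (Finset.mem_univ _) h
  · rw [if_neg h]
    symm
    refine Finset.sum_eq_zero fun i _ => if_neg fun h' => h (Set.mem_iUnion.2 ⟨i, h'⟩)

theorem μ_iUnion {k : ℕ} (P : Fin k → Set (XX × ℕ)) (hP : ∀ i j, i ≠ j → Disjoint (P i) (P j))
    (hS : ∀ i, P i ∈ Star exAlg) : μ (⋃ i, P i) = ∑ i, μ (P i) := by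
  unfold μ
  rw [← finsum_sum_comm]
  · exact finsum_congr fun q => blk_iUnion P hP q
  · intro i _
    exact support_finite (hS i)

theorem μ_act (h : GG × Equiv.Perm ℕ) (E : Set (XX × ℕ)) : μ (act h '' E) = μ E := by
  classical
  have hmem : ∀ p : XX × ℕ, p ∈ act h '' E ↔ act h⁻¹ p ∈ E := by
    intro p
    constructor
    · rintro ⟨y, hy, rfl⟩; rw [act_inv_act]; exact hy
    · intro h'; exact ⟨_, h', by rw [← act_mul, mul_inv_cancel, act_one]⟩
  have hblk : ∀ q : ℤ × ℕ, blk (act h '' E) q =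
      blk E (((Equiv.addLeft (-Multiplicative.toAdd h.1.1)).prodCongr h.2.symm) q) := by
    rintro ⟨k, m⟩
    have e2 : blk E (((Equiv.addLeft (-Multiplicative.toAdd h.1.1)).prodCongr h.2.symm) (k, m)) =
        ∑ b : Bool, if ((-Multiplicative.toAdd h.1.1 + k, h.1.2⁻¹ b), h.2.symm m) ∈ E
          then (1 : ZMod 2) else 0 := by
      unfold blk
      exact (Equiv.sum_comp (h.1.2⁻¹ : Equiv.Perm Bool) (fun b =>
        if ((-Multiplicative.toAdd h.1.1 + k, b), h.2.symm m) ∈ E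
          then (1 : ZMod 2) else 0)).symm
    rw [e2]
    unfold blk
    refine Finset.sum_congr rfl fun b _ => ?_
    have : (((k, b), m) ∈ act h '' E) ↔
        ((-Multiplicative.toAdd h.1.1 + k, h.1.2⁻¹ b), h.2.symm m) ∈ E := by
      rw [hmem]; rfl
    simp only [this]
  unfold μ
  rw [finsum_congr hblk]
  exact finsum_comp_equiv _

theorem μ_equidec {A B : Set (XX × ℕ)} (h : Equidec exAlg A B) : μ A = μ B := by
  obtain ⟨k, P, f, h1, h2, h3, h4, h5⟩ := h
  rw [← h3, ← h5, μ_iUnion P h2 h1, μ_iUnion _ h4 fun i => star_act exAlg (h1 i) _]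
  exact Finset.sum_congr rfl fun i _ => (μ_act _ _).symm

/-- The half line, at level `0`. -/
def A0 : Set (XX × ℕ) := {p | p.2 < 1 ∧ p.1 ∈ {x : XX | 0 ≤ x.1}}

/-- The half line starting at `1`, at level `0`. -/
def A1 : Set (XX × ℕ) := {p | p.2 < 1 ∧ p.1 ∈ {x : XX | 1 ≤ x.1}}

/-- A single point at level `0`. -/
def pt (x : XX) : Set (XX × ℕ) := {p | p.2 < 1 ∧ p.1 ∈ ({x} : Set XX)}

theorem A0_star : A0 ∈ Star exAlg :=
  ⟨1, fun _ => {x : XX | 0 ≤ x.1}, fun _ => ⟨1, by norm_num, fun x y h => by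
    simp only [Set.mem_ofPred_eq]; omega⟩, rfl⟩

theorem A1_star : A1 ∈ Star exAlg :=
  ⟨1, fun _ => {x : XX | 1 ≤ x.1}, fun _ => ⟨1, by norm_num, fun x y h => by
    simp only [Set.mem_ofPred_eq]; omega⟩, rfl⟩

theorem pt_star (x : XX) : pt x ∈ Star exAlg :=
  ⟨1, fun _ => {x}, fun _ => ⟨|x.1| + 1, by positivity, fun y z h => by
    have h1 := le_abs_self x.1
    have h2 := neg_abs_le x.1
    simp only [Set.mem_singleton_iff]
    constructor
    · intro e; exfalso; rw [e] at h; omega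
    · intro e; exfalso; rw [e] at h; omega⟩, rfl⟩

theorem pt_eq (x y : XX) : mk (pt x) (pt_star x) = mk (pt y) (pt_star y) := by
  rw [mk_eq]
  have : act ((Multiplicative.ofAdd (y.1 - x.1), Equiv.swap x.2 y.2), (1 : Equiv.Perm ℕ)) ''
      pt x = pt y := by
    ext ⟨z, m⟩
    constructor
    · rintro ⟨⟨w, k⟩, ⟨hk, hw⟩, e⟩
      rw [Set.mem_singleton_iff] at hw
      simp only at hw
      subst hw
      simp only [act, Prod.mk.injEq, Equiv.Perm.coe_one, id_eq] at e
      obtain ⟨rfl, rfl⟩ := e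
      refine ⟨hk, ?_⟩
      rw [Set.mem_singleton_iff, smul_def]
      simp
    · rintro ⟨hm, hz⟩
      rw [Set.mem_singleton_iff] at hz
      simp only at hz
      subst hz
      refine ⟨(x, m), ⟨hm, rfl⟩, ?_⟩
      simp [act, smul_def]
  rw [← this]
  exact equidec_act exAlg (pt_star x) _

theorem A0_A1 : mk A0 A0_star = mk A1 A1_star := by
  rw [mk_eq]
  have : act ((Multiplicative.ofAdd (1 : ℤ), (1 : Equiv.Perm Bool)), (1 : Equiv.Perm ℕ)) ''
      A0 = A1 := by
    ext ⟨⟨z, b⟩, m⟩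
    constructor
    · rintro ⟨⟨⟨w, c⟩, k⟩, ⟨hk, hw⟩, e⟩
      simp only [act, smul_def, Prod.mk.injEq, Equiv.Perm.coe_one, id_eq, toAdd_ofAdd] at e
      obtain ⟨⟨rfl, rfl⟩, rfl⟩ := e
      refine ⟨hk, ?_⟩
      simp only [Set.mem_ofPred_eq] at hw ⊢
      omega
    · rintro ⟨hm, hz⟩
      refine ⟨((z - 1, b), m), ⟨hm, ?_⟩, ?_⟩
      · simp only [Set.mem_ofPred_eq] at hz ⊢
        omega
      · simp [act, smul_def]
  rw [← this]
  exact equidec_act exAlg A0_star _

theorem absorb : mk A0 A0_star =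
    mk A0 A0_star + (mk (pt (-1, true)) (pt_star _) + mk (pt (-1, true)) (pt_star _)) := by
  have hd1 : Disjoint (pt (0, false)) (pt (0, true)) := by
    rw [Set.disjoint_left]
    rintro ⟨p, m⟩ ⟨_, h⟩ ⟨_, h'⟩
    rw [Set.mem_singleton_iff] at h h'
    rw [h] at h'
    simp at h'
  have hd2 : Disjoint A1 (pt (0, false) ∪ pt (0, true)) := by
    rw [Set.disjoint_left]
    rintro ⟨p, m⟩ ⟨_, h⟩ (⟨_, h'⟩ | ⟨_, h'⟩) <;>
    · rw [Set.mem_singleton_iff] at h'
      simp only [Set.mem_ofPred_eq] at h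
      simp only at h'
      rw [h'] at h
      simp at h
  have hU : A1 ∪ (pt (0, false) ∪ pt (0, true)) = A0 := by
    ext ⟨⟨k, b⟩, m⟩
    simp only [A0, A1, pt, Set.mem_union, Set.mem_ofPred_eq, Set.mem_singleton_iff, Prod.mk.injEq]
    constructor
    · rintro (⟨h, h'⟩ | ⟨h, h', -⟩ | ⟨h, h', -⟩)
      · exact ⟨h, by omega⟩
      · exact ⟨h, by omega⟩
      · exact ⟨h, by omega⟩
    · rintro ⟨h, h'⟩
      by_cases hk : 1 ≤ k
      · exact Or.inl ⟨h, hk⟩
      · have hk0 : k = 0 := by omega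
        cases b
        · exact Or.inr (Or.inl ⟨h, hk0, rfl⟩)
        · exact Or.inr (Or.inr ⟨h, hk0, rfl⟩)
  have h1 := mk_union (pt_star (0, false)) (pt_star (0, true)) hd1
  have h2 := mk_union A1_star (star_union exAlg (pt_star (0, false)) (pt_star (0, true))) hd2
  rw [h1, pt_eq (0, false) (-1, true), pt_eq (0, true) (-1, true), ← A0_A1] at h2
  rw [← h2]
  congr 1
  exact hU.symm

theorem μ_A0 : μ A0 = 0 := by
  classical
  unfold μ
  refine finsum_eq_zero_of_forall_eq_zero ?_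
  rintro ⟨k, m⟩
  unfold blk
  rw [Fintype.sum_bool]
  have : (((k, false), m) ∈ A0) ↔ (((k, true), m) ∈ A0) := Iff.rfl
  by_cases h : ((k, true), m) ∈ A0
  · rw [if_pos h, if_pos (this.2 h)]; decide
  · rw [if_neg h, if_neg (fun h' => h (this.1 h'))]; simp

theorem μ_pt : μ (pt (-1, true)) = 1 := by
  classical
  unfold μ
  rw [finsum_eq_single _ ((-1, 0) : ℤ × ℕ)]
  · unfold blk
    rw [Fintype.sum_bool, if_pos, if_neg]
    · simp
    · rintro ⟨_, h⟩
      rw [Set.mem_singleton_iff] at h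
      simp at h
    · exact ⟨by simp, rfl⟩
  · rintro ⟨k, m⟩ hne
    unfold blk
    refine Finset.sum_eq_zero fun b _ => if_neg ?_
    rintro ⟨h, h'⟩
    rw [Set.mem_singleton_iff] at h'
    simp only [Prod.mk.injEq] at h h'
    exact hne (Prod.ext h'.1 (by simp only; omega))

theorem disjoint_pt : Disjoint A0 (pt (-1, true)) := by
  rw [Set.disjoint_left]
  rintro ⟨p, m⟩ ⟨_, h⟩ ⟨_, h'⟩
  rw [Set.mem_singleton_iff] at h'
  simp only [Set.mem_ofPred_eq] at h
  simp only at h'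
  rw [h'] at h
  simp at h

theorem μ_union : μ (A0 ∪ pt (-1, true)) = 1 := by
  have h := μ_iUnion ![A0, pt (-1, true)] (by
    intro i j hij
    fin_cases i <;> fin_cases j
    · exact absurd rfl hij
    · exact disjoint_pt
    · exact disjoint_pt.symm
    · exact absurd rfl hij) (by
    intro i
    fin_cases i
    · exact A0_star
    · exact pt_star _)
  rw [Fin.sum_univ_two] at h
  simp only [Matrix.cons_val_zero, Matrix.cons_val_one, μ_A0, μ_pt, zero_add] at h
  rw [← h]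
  congr 1
  ext p
  simp only [Set.mem_union, Set.mem_iUnion, Fin.exists_fin_two, Matrix.cons_val_zero,
    Matrix.cons_val_one]

/-- **MP_3fd8c4, Q1.** There are a group `G` acting on a set `X` and a proper `G`-invariant
subalgebra `𝒜` of the power set of `X` such that the cancellation law fails in `𝒮(𝒜)`. -/
theorem result : ∃ (G : Type) (X : Type) (_ : Group G) (_ : MulAction G X)
    (𝒜 : InvariantSubalgebra G X), 𝒜.carrier ≠ Set.univ ∧ ¬ CancellationLaw 𝒜 := by
  refine ⟨GG, XX, inferInstance, inferInstance, exAlg, ?_, ?_⟩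
  · intro h
    have : {x : XX | x.2 = true} ∈ exAlg.carrier := by rw [h]; exact Set.mem_univ _
    obtain ⟨N, hN, hc⟩ := this
    have := hc (N, true) (N, false) (Or.inl ⟨le_refl _, le_refl _⟩)
    simp at this
  · intro h
    have h1 := h 2 (by norm_num) (mk A0 A0_star)
      (mk A0 A0_star + mk (pt (-1, true)) (pt_star _)) (by
        have e := absorb
        rw [two_nsmul, two_nsmul]
        conv_lhs => rw [e]
        generalize mk A0 A0_star = a at *
        generalize mk (pt (-1, true)) (pt_star _) = q at *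
        calc a + (q + q) + (a + (q + q)) = a + (a + (q + q)) + (q + q) := by abel
          _ = a + a + (q + q) := by rw [← e]
          _ = a + q + (a + q) := by abel)
    rw [← mk_union A0_star (pt_star _) disjoint_pt, mk_eq] at h1
    have h2 := μ_equidec h1
    rw [μ_A0, μ_union] at h2
    exact absurd h2 (by decide)

end Pool.Agent.Results.MP_3fd8c4_al.CancellationFails
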